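import Pool.Agent.Helper58.DH.Goals

/-!
# Project DH (MP_06d934_gt), packet L_DET (helper16)
-/

set_option autoImplicit false

namespace Pool.Agent.Helper16.DH

open Pool.Agent.Helper58.DG Pool.Agent.Helper58.DH

theorem pc_diff (P Q M E B : ℝ) (x : Fin 6 → ℝ) : DifferentiableAt ℝ (PC P Q M E B) x := by
  rw [differentiableAt_pi]
  intro i
  fin_cases i <;> simp [PC] <;> fun_prop

theorem l_det (hlin : L_LIN) : L_DET := by
  intro P Q M E hP hQ hM hPE hQE hs hqc hj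
  have hdet : LinearMap.det ((fderiv ℝ (PC P Q M E 1) (kc P Q M E) :
      (Fin 6 → ℝ) →L[ℝ] (Fin 6 → ℝ)) : (Fin 6 → ℝ) →ₗ[ℝ] (Fin 6 → ℝ)) = 0 := hj
  have hker := LinearMap.bot_lt_ker_of_det_eq_zero hdet
  obtain ⟨w, hw, hw0⟩ := (Submodule.ne_bot_iff _).1 hker.ne'
  apply hw0
  have hw' : fderiv ℝ (PC P Q M E 1) (kc P Q M E) w = 0 := hw
  have hline : HasDerivAt (fun s : ℝ ↦ kc P Q M E + s • w) w 0 := by
    have h1 : HasDerivAt (fun s : ℝ ↦ s • w) ((1 : ℝ) • w) 0 := (hasDerivAt_id (0 : ℝ)).smul_const w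
    simpa using h1.const_add (kc P Q M E)
  have hPd : HasFDerivAt (PC P Q M E 1) (fderiv ℝ (PC P Q M E 1) (kc P Q M E))
      (kc P Q M E + (0 : ℝ) • w) := by
    have := (pc_diff P Q M E 1 (kc P Q M E)).hasFDerivAt
    simpa using this
  have h : HasDerivAt (fun s : ℝ ↦ PC P Q M E 1 (kc P Q M E + s • w)) 0 0 := by
    have := hPd.comp_hasDerivAt (0 : ℝ) hline
    rw [hw'] at this
    exact this
  rw [hasDerivAt_pi] at h
  have h0 := (h 0).deriv
  have h1 := (h 1).deriv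
  have h2 := (h 2).deriv
  have h3 := (h 3).deriv
  have h4 := (h 4).deriv
  have h5 := (h 5).deriv
  clear h hPd hline hw' hw hker hdet hj
  simp [PC, kc] at h0 h1 h2 h3 h4 h5
  simp (disch := fun_prop) only [deriv_fun_add, deriv_fun_sub, deriv_fun_mul, deriv_fun_pow,
    deriv_const, deriv_id''] at h0 h1 h2 h3 h4 h5
  have hd' : M = 1 - 2 * P - 2 * Q - 2 * E := by linarith
  refine hlin P Q M E w hP hQ hM hPE hQE hqc _ _ _ _ _ _ rfl rfl rfl rfl rfl rfl ?_ ?_ ?_ ?_ ?_ ?_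
  · rw [hd'] at h0 ⊢
    linear_combination h0 / 2
  · rw [hd'] at h1 ⊢
    linear_combination h1 / 2
  · rw [hd'] at h2 ⊢
    linear_combination h2 / 2
  · rw [hd'] at h3 ⊢
    linear_combination h3 / 2
  · rw [hd'] at h4 ⊢
    linear_combination h4
  · rw [hd'] at h5 ⊢
    linear_combination h5

end Pool.Agent.Helper16.DH
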